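import Pool.Agent.U775.LG.LuzinM
import Pool.Agent.U775.LG.LuzinN
import Pool.Agent.U775.LG.Force2

/-!
# `κ`-Luzin sets without `κ`-Luzin subgroups, for both ideals

It is consistent that for some uncountable cardinal `κ`, for both the meagre ideal and the ideal of
Lebesgue null sets, and in every dimension `n ≥ 1`, there is a `κ`-Luzin set in `ℝⁿ`, while no
subgroup of `ℝⁿ` is a `κ`-Luzin set.

* `Principle` is a combinatorial statement about a map `r` from a set `K` to a linear order `Ω`
  with countable initial segments (the sets `r ⁻¹ {ξ}` are the levels of `K`), a family of slaloms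
  `C w`, a family of strictly increasing functions `h j`, and a family of sequences `D j` of finite
  sets. It implies that there are `|K|`-Luzin sets in all dimensions and no `|K|`-Luzin subgroups,
  for both ideals. Here `|K|` is a singular cardinal.
* Some forcing notion (the product of the collapse of `2 ^ ℵ₀` to `ω₁` with a product of Silver
  forcings with countable supports) forces the principle, over an arbitrary model of ZFC.

Outline. Let `G` be a `κ`-Luzin subgroup, `κ = |K|`, let `X ⊆ G` have the size of a level and let `B`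
belong to the ideal. Then `G` is not covered by `X + B`, since `(x + B) ∩ G = x + (B ∩ G)` has fewer
than `κ` elements. The escape property (`Esc`) says that this fails for one of `2 ^ ℵ₀` sets `B` of
the ground model: such an uncovered element `z` is captured, up to `2 ^ k` possibilities at stage
`k`, by the product of the Silver forcings with coordinates in a set `S` of size `2 ^ ℵ₀` of the
ground model, and some element of `X` can be changed with the help of the other coordinates at every
stage so that its difference to `z` belongs to `B`. For null sets this uses that for all `l` and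
`ε > 0` there is an `m` such that for every set `U` of `m` integers in `[0, N)` there is a set `D` of
at most `ε N` integers such that for every set `C` of `l` integers in `[0, N)` some `u` in `U` has
`C - u ⊆ D` (`finite_lemma`).

A sentence of the forcing language is represented by the set of the conditions which force it;
names for subsets of `ℕ` and for functions are given by families of sets of conditions
(`Pool.Agent.U775.LG.Defs`).
-/

set_option autoImplicit false

namespace Pool.Agent.Results.MP_6ff61e_lc.NoLuzinSubgroup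

open Set Cardinal MeasureTheory
open Pool.Agent.U775.LG
open Pool.Agent.R594.Star (exists_gt_K1 mk_K1 countable_Iio_K1)

/-- The conditions on the objects of the ground model. -/
structure Ground {Ω K W H Δ : Type} [LinearOrder Ω] (r : K → Ω) (C : W → ℕ → Finset ℕ)
    (h : H → ℕ → ℕ) (D : Δ → ℕ → Finset (ℕ × ℤ)) : Prop where
  nonempty : Nonempty Ω
  countable_Iio : ∀ ξ : Ω, (Iio ξ).Countable
  exists_gt : ∀ ξ : Ω, ∃ η, ξ < η
  infinite : ∀ ξ, {a | r a = ξ}.Infinite
  card_le : ∀ w n, (C w n).card ≤ 2 ^ n
  strictMono : ∀ j, StrictMono (h j)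
  sum_le : ∀ j k, ∑ p ∈ D j k, (1 / 2 : ℝ) ^ p.1 ≤ (1 / 2) ^ k

/-- The set `X` is a `κ`-Luzin set for the ideal `I`. -/
def IsLuzin {n : ℕ} (I : Set (Fin n → ℝ) → Prop) (κ : Cardinal.{0}) (X : Set (Fin n → ℝ)) : Prop :=
  κ ≤ #X ∧ ∀ A, I A → #(↥(X ∩ A)) < κ

/-- (1) Some forcing notion forces the principle. (2) The principle implies that `κ = |K|` is an
uncountable cardinal such that for every `n ≥ 1` there is a `κ`-Luzin set for the ideal of null sets
in `ℝⁿ` and no subgroup of `ℝⁿ` is one, and there is a `κ`-Luzin set for the meagre ideal in `ℝⁿ`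
and no subgroup of `ℝⁿ` is one. -/
theorem result :
    (∃ (P : Type) (_ : Preorder P) (Ω K W H Δ : Type) (_ : LinearOrder Ω) (r : K → Ω)
      (C : W → ℕ → Finset ℕ) (h : H → ℕ → ℕ) (D : Δ → ℕ → Finset (ℕ × ℤ)), Nonempty P ∧
      Ground r C h D ∧ ∀ p : P, p ∈ ForcedPrinciple P r C h D) ∧
    ∀ (Ω K W H Δ : Type) (_ : LinearOrder Ω) (r : K → Ω) (C : W → ℕ → Finset ℕ) (h : H → ℕ → ℕ)
      (D : Δ → ℕ → Finset (ℕ × ℤ)), Ground r C h D → Principle r C h D →
      ℵ₀ < #K ∧ ∀ n : ℕ, 0 < n →
        ((∃ X : Set (Fin n → ℝ), IsLuzin (fun A => volume A = 0) (#K) X) ∧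
          ¬ ∃ G : AddSubgroup (Fin n → ℝ), IsLuzin (fun A => volume A = 0) (#K)
            (G : Set (Fin n → ℝ))) ∧
        ((∃ X : Set (Fin n → ℝ), IsLuzin (fun A => IsMeagre A) (#K) X) ∧
          ¬ ∃ G : AddSubgroup (Fin n → ℝ), IsLuzin (fun A => IsMeagre A) (#K)
            (G : Set (Fin n → ℝ))) := by
  refine ⟨?_, ?_⟩
  · obtain ⟨P, hP, h1, h2⟩ := exists_forcing2
    refine ⟨P, hP, _, _, _, _, _, inferInstance, _, _, _, _, h1, ⟨?_, countable_Iio_K1,
      fun ξ => ?_, fun ξ => ?_, fun w => w.2, fun j => j.2.1, fun j => j.2⟩, h2⟩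
    · exact ⟨(exists_gt_K1 (C := ∅) countable_empty).choose⟩
    · obtain ⟨η, h3⟩ := exists_gt_K1 (C := {ξ}) (countable_singleton ξ)
      exact ⟨η, h3 ξ rfl⟩
    · rw [← infinite_coe_iff, ← aleph0_le_mk_iff, mk_level]
      exact (aleph0_le_continuum.trans (cantor 𝔠).le).trans (two_power_continuum_lt _).le
  · intro Ω K W H Δ _ r C h D hg hp
    have := hg.nonempty
    have hlt : ∀ ξ η, ξ < η → #{a | r a = ξ} < #{a | r a = η} :=
      fun ξ η h => level_lt hg.infinite hp.size h
    refine ⟨?_, fun n hn => ⟨⟨?_, ?_⟩, ?_, ?_⟩⟩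
    · obtain ⟨ξ⟩ := hg.nonempty
      refine lt_of_le_of_lt ?_ (level_lt_mk hg.exists_gt hlt ξ)
      have := (hg.infinite ξ).to_subtype
      exact aleph0_le_mk _
    · exact luzinN hg.countable_Iio hg.exists_gt hg.infinite hg.card_le hp.loc hp.dist hp.size hn
    · rintro ⟨G, hG, hG2⟩
      exact no_luzinN hg.exists_gt hg.infinite hg.sum_le hp.size hp.escN G hG hG2
    · exact luzinM hg.countable_Iio hg.exists_gt hg.infinite hg.card_le hp.loc hp.dist hp.size hn
    · rintro ⟨G, hG, hG2⟩
      exact no_luzinM hg.exists_gt hg.infinite hg.strictMono hp.size hp.escM G hG hG2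

end Pool.Agent.Results.MP_6ff61e_lc.NoLuzinSubgroup
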